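import Pool.Agent.helper1.T1N.SpecN

/-!
# Project T1 (MP_07c750_an), block N, row NSB: local averages
-/

set_option autoImplicit false

open MeasureTheory Finset

namespace Pool.Agent.T1N

noncomputable section

theorem NSB_G {h x : ℝ} (hh : 0 < h) (hx : |x| * h ≤ 1 / 4) (hc : Continuous ee) :
    2 * h * (29 / 50) ≤ ‖∫ t in (-h)..h, ee (t * x)‖ := by
  have hi : IntervalIntegrable (fun t => ee (t * x)) volume (-h) h :=
    (hc.comp (continuous_id.mul continuous_const)).intervalIntegrable _ _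
  have h1 : ∫ t in (-h)..h, (ee (t * x)).re = (∫ t in (-h)..h, ee (t * x)).re :=
    Complex.reCLM.intervalIntegral_comp_comm hi
  have h2 : ∀ t : ℝ, (ee (t * x)).re = Real.cos (2 * Real.pi * (t * x)) := by
    intro t
    unfold ee
    rw [Complex.exp_ofReal_mul_I_re]
  have h3 : ∫ t in (-h)..h, (1 - (2 * Real.pi ^ 2 * x ^ 2) * t ^ 2) ≤ ∫ t in (-h)..h, Real.cos (2 * Real.pi * (t * x)) := by
    refine intervalIntegral.integral_mono_on (by linarith) ?_ ?_ (fun t _ => ?_)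
    · exact (by fun_prop : Continuous fun t : ℝ => 1 - (2 * Real.pi ^ 2 * x ^ 2) * t ^ 2).intervalIntegrable _ _
    · exact (by fun_prop : Continuous fun t : ℝ => Real.cos (2 * Real.pi * (t * x))).intervalIntegrable _ _
    · have := Real.one_sub_sq_div_two_le_cos (x := 2 * Real.pi * (t * x))
      nlinarith
  have h4 : ∫ t in (-h)..h, (1 - (2 * Real.pi ^ 2 * x ^ 2) * t ^ 2) = 2 * h - (4 * Real.pi ^ 2 / 3) * (x ^ 2 * h ^ 3) := by
    rw [intervalIntegral.integral_sub (by simp) ((by fun_prop : Continuous fun t : ℝ => (2 * Real.pi ^ 2 * x ^ 2) * t ^ 2).intervalIntegrable _ _),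
      intervalIntegral.integral_const_mul, integral_pow, intervalIntegral.integral_const]
    simp only [smul_eq_mul]
    push_cast
    ring
  have h5 : (x * h) ^ 2 ≤ 1 / 16 := by
    have : |x * h| ≤ 1 / 4 := by rw [abs_mul, abs_of_pos hh]; exact hx
    have := sq_abs (x * h)
    nlinarith [abs_nonneg (x * h)]
  have h6 : Real.pi ^ 2 ≤ 10 := by nlinarith [Real.pi_lt_d2, Real.pi_pos]
  have h7 : 2 * h * (29 / 50) ≤ 2 * h - (4 * Real.pi ^ 2 / 3) * (x ^ 2 * h ^ 3) := by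
    have e : (4 * Real.pi ^ 2 / 3) * (x ^ 2 * h ^ 3) = (4 / 3) * h * (Real.pi ^ 2 * (x * h) ^ 2) := by ring
    have e2 : Real.pi ^ 2 * (x * h) ^ 2 ≤ 10 * (1 / 16) := mul_le_mul h6 h5 (by positivity) (by norm_num)
    rw [e]
    nlinarith [mul_le_mul_of_nonneg_left e2 hh.le]
  calc 2 * h * (29 / 50) ≤ ∫ t in (-h)..h, Real.cos (2 * Real.pi * (t * x)) := h7.trans (h4 ▸ h3)
    _ = (∫ t in (-h)..h, ee (t * x)).re := by rw [← h1]; simp only [h2]
    _ ≤ ‖∫ t in (-h)..h, ee (t * x)‖ := Complex.re_le_norm _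

theorem NSB_shift (hadd : ∀ x y : ℝ, ee (x + y) = ee x * ee y) {h : ℝ} (hh : 0 < h) (t0 x : ℝ) :
    ∫ t in Set.Icc (t0 - h) (t0 + h), ee (t * x) = ee (t0 * x) * ∫ t in (-h)..h, ee (t * x) := by
  rw [integral_Icc_eq_integral_Ioc, ← intervalIntegral.integral_of_le (by linarith)]
  have h1 := intervalIntegral.integral_comp_add_right (a := -h) (b := h) (fun t => ee (t * x)) t0
  have h2 : -h + t0 = t0 - h := by ring
  have h3 : h + t0 = t0 + h := by ring
  rw [h2, h3] at h1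
  rw [← h1, ← intervalIntegral.integral_const_mul]
  congr 1
  funext t
  rw [← hadd]
  congr 1
  ring

theorem NSB_proof (hNEE : NEE_stmt) : NSB_stmt := by
  obtain ⟨-, hadd, -, -, hc, -, -⟩ := hNEE
  intro B hB ι s c x y hxy
  obtain ⟨h, hh⟩ : ∃ h : ℝ, h = 1 / (4 * B) := ⟨_, rfl⟩
  have hB0 : 0 < B := by linarith
  have hh0 : 0 < h := by rw [hh]; positivity
  have hBh : B * h = 1 / 4 := by rw [hh]; field_simp
  obtain ⟨G, hG⟩ : ∃ G : ℝ → ℂ, G = fun x => ∫ t in (-h)..h, ee (t * x) := ⟨_, rfl⟩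
  have hGb : ∀ z : ℝ, |z| ≤ B → 2 * h * (29 / 50) ≤ ‖G z‖ := by
    intro z hz
    rw [hG]
    exact NSB_G hh0 ((mul_le_mul_of_nonneg_right hz hh0.le).trans hBh.le) hc
  have hGn : ∀ z : ℝ, |z| ≤ B → 0 < ‖G z‖ := fun z hz => lt_of_lt_of_le (by positivity) (hGb z hz)
  refine ⟨fun k => c k * (((2 * h) ^ 2 : ℝ) : ℂ) / (G (x k) * G (y k)), fun k hk => ?_, fun t0 η0 => ?_⟩
  · obtain ⟨hx, hy⟩ := hxy k hk
    rw [norm_div, norm_mul, norm_mul, Complex.norm_real, Real.norm_of_nonneg (by positivity), div_le_iff₀ (mul_pos (hGn _ hx) (hGn _ hy))]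
    have h1 := mul_le_mul (hGb _ hx) (hGb _ hy) (by positivity) (norm_nonneg _)
    have h2 : (2 * h) ^ 2 ≤ 3 * (‖G (x k)‖ * ‖G (y k)‖) := by nlinarith [sq_nonneg h]
    calc ‖c k‖ * (2 * h) ^ 2 ≤ ‖c k‖ * (3 * (‖G (x k)‖ * ‖G (y k)‖)) := mul_le_mul_of_nonneg_left h2 (norm_nonneg _)
      _ = 3 * ‖c k‖ * (‖G (x k)‖ * ‖G (y k)‖) := by ring
  · rw [← hh]
    have e1 : ∀ p : ℝ × ℝ, F2 s (fun k => c k * (((2 * h) ^ 2 : ℝ) : ℂ) / (G (x k) * G (y k))) x y p.1 p.2 =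
        ∑ k ∈ s, (c k * (((2 * h) ^ 2 : ℝ) : ℂ) / (G (x k) * G (y k))) * (ee (p.1 * x k) * ee (p.2 * y k)) := by
      intro p
      unfold F2
      refine Finset.sum_congr rfl fun k _ => ?_
      rw [hadd]
    simp only [e1]
    have hfin : volume (Set.Icc (t0 - h) (t0 + h) ×ˢ Set.Icc (η0 - h) (η0 + h) : Set (ℝ × ℝ)) < ⊤ :=
      (isCompact_Icc.prod isCompact_Icc).measure_lt_top
    have hint : ∀ k ∈ s, IntegrableOn (fun p : ℝ × ℝ => (c k * (((2 * h) ^ 2 : ℝ) : ℂ) / (G (x k) * G (y k))) * (ee (p.1 * x k) * ee (p.2 * y k)))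
        (Set.Icc (t0 - h) (t0 + h) ×ˢ Set.Icc (η0 - h) (η0 + h)) volume := by
      intro k _
      have hcont : Continuous fun p : ℝ × ℝ => (c k * (((2 * h) ^ 2 : ℝ) : ℂ) / (G (x k) * G (y k))) * (ee (p.1 * x k) * ee (p.2 * y k)) :=
        continuous_const.mul ((hc.comp (continuous_fst.mul continuous_const)).mul (hc.comp (continuous_snd.mul continuous_const)))
      exact hcont.continuousOn.integrableOn_compact (isCompact_Icc.prod isCompact_Icc)
    rw [integral_finsetSum s hint, Finset.mul_sum]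
    unfold F2
    refine Finset.sum_congr rfl fun k hk => ?_
    obtain ⟨hx, hy⟩ := hxy k hk
    have hgx : G (x k) ≠ 0 := norm_pos_iff.mp (hGn _ hx)
    have hgy : G (y k) ≠ 0 := norm_pos_iff.mp (hGn _ hy)
    rw [integral_const_mul, Measure.volume_eq_prod, setIntegral_prod_mul (fun t => ee (t * x k)) (fun t => ee (t * y k)),
      NSB_shift hadd hh0, NSB_shift hadd hh0, hadd]
    have g1 : (∫ t in (-h)..h, ee (t * x k)) = G (x k) := by rw [hG]
    have g2 : (∫ t in (-h)..h, ee (t * y k)) = G (y k) := by rw [hG]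
    rw [g1, g2]
    have e2 : ((4 * B ^ 2 : ℝ) : ℂ) * (((2 * h) ^ 2 : ℝ) : ℂ) = 1 := by
      rw [← Complex.ofReal_mul, ← Complex.ofReal_one]
      congr 1
      have : B * h = 1 / 4 := hBh
      nlinarith
    have e3 : c k * (((2 * h) ^ 2 : ℝ) : ℂ) / (G (x k) * G (y k)) * (ee (t0 * x k) * G (x k) * (ee (η0 * y k) * G (y k))) =
        c k * (((2 * h) ^ 2 : ℝ) : ℂ) * (ee (t0 * x k) * ee (η0 * y k)) := by
      rw [div_mul_eq_mul_div, div_eq_iff (mul_ne_zero hgx hgy)]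
      ring
    rw [e3]
    calc c k * (ee (t0 * x k) * ee (η0 * y k)) = (((4 * B ^ 2 : ℝ) : ℂ) * (((2 * h) ^ 2 : ℝ) : ℂ)) * (c k * (ee (t0 * x k) * ee (η0 * y k))) := by rw [e2, one_mul]
      _ = _ := by ring

end

end Pool.Agent.T1N
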